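import Mathlib

/-! Directional derivatives and the maximum principle for the hyperbolic Laplacian of `H^3`
(adapted from `Pool.Agent.Q196.SE`). -/

set_option autoImplicit false
set_option linter.unusedSectionVars false
set_option maxSynthPendingDepth 3

open Set Filter Topology
open scoped ContDiff

namespace Pool.Agent.Q296.IB

section gen

variable {E : Type*} [NormedAddCommGroup E] [NormedSpace ℝ E]

/-- directional derivative -/
noncomputable def dd (v : E) (g : E → ℝ) (p : E) : ℝ := fderiv ℝ g p v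

lemma dd_congr {v : E} {g h : E → ℝ} {p : E} (e : g =ᶠ[𝓝 p] h) : dd v g p = dd v h p := by
  unfold dd; rw [e.fderiv_eq]

lemma dd_congr' {v : E} {g h : E → ℝ} {p : E} (e : g =ᶠ[𝓝 p] h) : dd v g =ᶠ[𝓝 p] dd v h := by
  filter_upwards [e.eventuallyEq_nhds] with w hw using dd_congr hw

lemma dd_const (v : E) (c : ℝ) (p : E) : dd v (fun _ => c) p = 0 := by simp [dd]

lemma contDiffAt_dd {v : E} {g : E → ℝ} {p : E} {m n : WithTop ℕ∞} (hg : ContDiffAt ℝ n g p)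
    (hmn : m + 1 ≤ n) : ContDiffAt ℝ m (dd v g) p :=
  (hg.fderiv_right hmn).clm_apply contDiffAt_const

lemma dd_mul {v : E} {g h : E → ℝ} {p : E} (hg : DifferentiableAt ℝ g p)
    (hh : DifferentiableAt ℝ h p) :
    dd v (fun w => g w * h w) p = g p * dd v h p + h p * dd v g p := by
  unfold dd; rw [fderiv_fun_mul hg hh]; simp

lemma dd_add {v : E} {g h : E → ℝ} {p : E} (hg : DifferentiableAt ℝ g p)
    (hh : DifferentiableAt ℝ h p) : dd v (fun w => g w + h w) p = dd v g p + dd v h p := by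
  unfold dd; rw [fderiv_fun_add hg hh]; simp

lemma dd_smul {v : E} (c : ℝ) (g : E → ℝ) (p : E) : dd v (fun w => c * g w) p = c * dd v g p := by
  unfold dd
  rw [show (fun w => c * g w) = c • g from rfl, fderiv_const_smul_field]
  rfl

lemma dd_comp {v : E} {b : ℝ → ℝ} {g : E → ℝ} {p : E} (hb : DifferentiableAt ℝ b (g p))
    (hg : DifferentiableAt ℝ g p) : dd v (fun w => b (g w)) p = deriv b (g p) * dd v g p := by
  unfold dd
  have h := hb.hasDerivAt.comp_hasFDerivAt p hg.hasFDerivAt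
  have h' : HasFDerivAt (fun w => b (g w)) (deriv b (g p) • fderiv ℝ g p) p := h
  rw [h'.fderiv]; simp

lemma ev_diff {g : E → ℝ} {p : E} (hg : ContDiffAt ℝ 2 g p) : ∀ᶠ w in 𝓝 p, DifferentiableAt ℝ g w := by
  filter_upwards [hg.eventually (by simp)] with w hw using hw.differentiableAt (by norm_num)

lemma diff_dd {v : E} {g : E → ℝ} {p : E} (hg : ContDiffAt ℝ 2 g p) :
    DifferentiableAt ℝ (dd v g) p :=
  (contDiffAt_dd (m := 1) (n := 2) hg (by norm_num)).differentiableAt (by norm_num)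

lemma dd2_comp {v : E} {b : ℝ → ℝ} {g : E → ℝ} {p : E} (hb : ContDiff ℝ 2 b)
    (hg : ContDiffAt ℝ 2 g p) : dd v (dd v (fun w => b (g w))) p =
      deriv (deriv b) (g p) * dd v g p ^ 2 + deriv b (g p) * dd v (dd v g) p := by
  have hb1 : Differentiable ℝ b := hb.differentiable (by norm_num)
  have hb' : ContDiff ℝ (1 + 1) b := by rw [one_add_one_eq_two]; exact hb
  have hb2 : Differentiable ℝ (deriv b) :=
    ((contDiff_succ_iff_deriv (n := 1)).1 hb').2.2.differentiable (by norm_num)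
  have hdg : DifferentiableAt ℝ g p := hg.differentiableAt (by norm_num)
  have e1 : dd v (fun w => b (g w)) =ᶠ[𝓝 p] fun w => deriv b (g w) * dd v g w := by
    filter_upwards [ev_diff hg] with w hw using dd_comp (hb1 _) hw
  have hdb : DifferentiableAt ℝ (fun w => deriv b (g w)) p := (hb2 _).comp p hdg
  rw [dd_congr e1, dd_mul hdb (diff_dd hg), dd_comp (hb2 _) hdg]
  ring

lemma dd2_add {v : E} {g h : E → ℝ} {p : E} (hg : ContDiffAt ℝ 2 g p) (hh : ContDiffAt ℝ 2 h p) :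
    dd v (dd v (fun w => g w + h w)) p = dd v (dd v g) p + dd v (dd v h) p := by
  have e1 : dd v (fun w => g w + h w) =ᶠ[𝓝 p] fun w => dd v g w + dd v h w := by
    filter_upwards [ev_diff hg, ev_diff hh] with w h1 h2 using dd_add h1 h2
  rw [dd_congr e1, dd_add (diff_dd hg) (diff_dd hh)]

lemma dd2_smul {v : E} (c : ℝ) (g : E → ℝ) (p : E) :
    dd v (dd v (fun w => c * g w)) p = c * dd v (dd v g) p := by
  rw [show dd v (fun w => c * g w) = fun w => c * dd v g w from funext (dd_smul c g), dd_smul]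

lemma dd_of {v : E} {g : E → ℝ} {p : E} {L : E →L[ℝ] ℝ} (h : HasFDerivAt g L p) :
    dd v g p = L v := by
  unfold dd; rw [h.fderiv]

lemma hasFDerivAt_quot {g h : E → ℝ} {z : E} {G H : E →L[ℝ] ℝ} (hg : HasFDerivAt g G z)
    (hh : HasFDerivAt h H z) (h0 : h z ≠ 0) :
    HasFDerivAt (fun w => g w / h w) ((h z)⁻¹ • G - (g z / h z ^ 2) • H) z := by
  have h1 : HasFDerivAt (fun w => (h w)⁻¹) ((-(h z ^ 2)⁻¹) • H) z :=
    (hasDerivAt_inv h0).comp_hasFDerivAt z hh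
  have h2 := hg.mul h1
  have h3 : HasFDerivAt (fun w => g w / h w) _ z := h2.congr_of_eventuallyEq
    (Filter.Eventually.of_forall fun w => by simp [div_eq_mul_inv])
  refine h3.congr_fderiv ?_
  ext w
  simp
  field_simp
  ring

/-! ### derivative tests -/

lemma deriv2_le_of_localMax {g : ℝ → ℝ} (hmax : IsLocalMax g 0) (hg : ContinuousAt g 0) :
    deriv (deriv g) 0 ≤ 0 := by
  by_contra hcon
  push Not at hcon
  have h0 : deriv g 0 = 0 := hmax.deriv_eq_zero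
  have hmin := isLocalMin_of_deriv_deriv_pos hcon h0 hg
  have e : g =ᶠ[𝓝 0] fun _ => g 0 := by
    filter_upwards [hmax, hmin] with t h1 h2 using le_antisymm h1 h2
  have e2 : deriv g =ᶠ[𝓝 0] fun _ => 0 := by
    filter_upwards [e.eventuallyEq_nhds] with t ht
    rw [ht.deriv_eq]; simp
  rw [e2.deriv_eq] at hcon
  simp at hcon

lemma dd2_le {g : E → ℝ} {p v : E} (hg : ContDiffAt ℝ 2 g p) (hmax : IsLocalMax g p) :
    dd v (dd v g) p ≤ 0 := by
  set γ : ℝ → E := fun t => p + t • v with hγ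
  have hγ0 : γ 0 = p := by simp [hγ]
  have hγc : Continuous γ := by fun_prop
  have hγd : ∀ t, HasDerivAt γ v t := by
    intro t
    have h1 : HasDerivAt (fun t : ℝ => t • v) ((1 : ℝ) • v) t := (hasDerivAt_id t).smul_const v
    rw [one_smul] at h1
    exact h1.const_add p
  have hT : Tendsto γ (𝓝 0) (𝓝 p) := by
    have := hγc.tendsto 0
    rwa [hγ0] at this
  have h1 : IsLocalMax (fun t => g (γ t)) 0 := by
    have := hT.eventually hmax
    show ∀ᶠ t in 𝓝 0, g (γ t) ≤ g (γ 0)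
    rw [hγ0]; exact this
  have h2 : ContinuousAt (fun t => g (γ t)) 0 :=
    ContinuousAt.comp (by rw [hγ0]; exact hg.continuousAt) hγc.continuousAt
  have e1 : deriv (fun t => g (γ t)) =ᶠ[𝓝 0] fun t => dd v g (γ t) := by
    filter_upwards [hT.eventually (ev_diff hg)] with t ht
    exact (ht.hasFDerivAt.comp_hasDerivAt t (hγd t)).deriv
  have hd : DifferentiableAt ℝ (dd v g) p := diff_dd hg
  have e2 : deriv (fun t => dd v g (γ t)) 0 = dd v (dd v g) p := by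
    have hd' : HasFDerivAt (dd v g) (fderiv ℝ (dd v g) p) (γ 0) := by
      rw [hγ0]; exact hd.hasFDerivAt
    exact (hd'.comp_hasDerivAt 0 (hγd 0)).deriv
  have := deriv2_le_of_localMax h1 h2
  rw [e1.deriv_eq, e2] at this
  exact this

lemma dd_eq_zero {g : E → ℝ} {p v : E} (hmax : IsLocalMax g p) : dd v g p = 0 := by
  unfold dd
  rw [hmax.fderiv_eq_zero]; rfl

end gen

/-! ### the hyperbolic Laplacian of `H^3 = ℂ × (0, ∞)` -/

/-- coordinates -/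
abbrev e1 : ℂ × ℝ := (1, 0)
abbrev e2 : ℂ × ℝ := (Complex.I, 0)
abbrev e3 : ℂ × ℝ := (0, 1)

/-- the upper half space -/
def UH : Set (ℂ × ℝ) := {p | 0 < p.2}

lemma isOpen_UH : IsOpen UH := isOpen_lt continuous_const continuous_snd

/-- the hyperbolic Laplacian -/
noncomputable def op (g : ℂ × ℝ → ℝ) (p : ℂ × ℝ) : ℝ :=
  p.2 ^ 2 * (dd e1 (dd e1 g) p + dd e2 (dd e2 g) p + dd e3 (dd e3 g) p) - p.2 * dd e3 g p

lemma op_zero (p : ℂ × ℝ) : op (fun _ => (0 : ℝ)) p = 0 := by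
  have h : ∀ v : ℂ × ℝ, dd v (fun _ : ℂ × ℝ => (0 : ℝ)) = fun _ => 0 := fun v => funext (dd_const v 0)
  unfold op
  rw [h, h, h, h, h, h]; simp

lemma op_add {g h : ℂ × ℝ → ℝ} {p : ℂ × ℝ} (hg : ContDiffAt ℝ 2 g p) (hh : ContDiffAt ℝ 2 h p) :
    op (fun w => g w + h w) p = op g p + op h p := by
  unfold op
  rw [dd2_add hg hh, dd2_add hg hh, dd2_add hg hh, dd_add (hg.differentiableAt (by norm_num))
    (hh.differentiableAt (by norm_num))]
  ring

lemma op_smul (c : ℝ) (g : ℂ × ℝ → ℝ) (p : ℂ × ℝ) : op (fun w => c * g w) p = c * op g p := by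
  unfold op
  rw [dd2_smul, dd2_smul, dd2_smul, dd_smul]
  ring

lemma op_comp {b : ℝ → ℝ} {g : ℂ × ℝ → ℝ} {p : ℂ × ℝ} (hb : ContDiff ℝ 2 b)
    (hg : ContDiffAt ℝ 2 g p) : op (fun w => b (g w)) p =
      deriv (deriv b) (g p) * (p.2 ^ 2 * (dd e1 g p ^ 2 + dd e2 g p ^ 2 + dd e3 g p ^ 2)) +
        deriv b (g p) * op g p := by
  unfold op
  rw [dd2_comp hb hg, dd2_comp hb hg, dd2_comp hb hg,
    dd_comp (hb.differentiable (by norm_num) _) (hg.differentiableAt (by norm_num))]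
  ring

lemma op_le_of_localMax {g : ℂ × ℝ → ℝ} {p : ℂ × ℝ} (hg : ContDiffAt ℝ 2 g p)
    (hmax : IsLocalMax g p) : op g p ≤ 0 := by
  have h1 := dd2_le (v := e1) hg hmax
  have h2 := dd2_le (v := e2) hg hmax
  have h3 := dd2_le (v := e3) hg hmax
  unfold op
  rw [dd_eq_zero hmax, mul_zero, sub_zero]
  exact mul_nonpos_of_nonneg_of_nonpos (sq_nonneg _) (by linarith)

/-! ### the barrier -/

/-- squared Euclidean distance to the point `(ξ, 0)` -/
def Q (ξ : ℂ) (p : ℂ × ℝ) : ℝ := (p.1.re - ξ.re) ^ 2 + (p.1.im - ξ.im) ^ 2 + p.2 ^ 2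

/-- `sinh` of the signed distance to the hemisphere with centre `ξ` and radius `r` -/
noncomputable def Sg (ξ : ℂ) (r : ℝ) (p : ℂ × ℝ) : ℝ := (Q ξ p - r ^ 2) / (2 * r * p.2)

/-- the barrier `cosh^{-s}` of the distance to the hemisphere -/
noncomputable def Bg (s : ℝ) (ξ : ℂ) (r : ℝ) (p : ℂ × ℝ) : ℝ := (1 + Sg ξ r p ^ 2) ^ (-(s / 2))

/-- the one variable function of the barrier -/
noncomputable def tb (s t : ℝ) : ℝ := (1 + t ^ 2) ^ (-(s / 2))

variable {s r : ℝ} {ξ : ℂ}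

/-- coordinate functionals -/
noncomputable def cR : ℂ × ℝ →L[ℝ] ℝ := Complex.reCLM.comp (ContinuousLinearMap.fst ℝ ℂ ℝ)
noncomputable def cI : ℂ × ℝ →L[ℝ] ℝ := Complex.imCLM.comp (ContinuousLinearMap.fst ℝ ℂ ℝ)
noncomputable def cY : ℂ × ℝ →L[ℝ] ℝ := ContinuousLinearMap.snd ℝ ℂ ℝ

@[simp] lemma cR_app (p : ℂ × ℝ) : cR p = p.1.re := rfl
@[simp] lemma cI_app (p : ℂ × ℝ) : cI p = p.1.im := rfl
@[simp] lemma cY_app (p : ℂ × ℝ) : cY p = p.2 := rfl

lemma hR (p : ℂ × ℝ) : HasFDerivAt (fun p : ℂ × ℝ => p.1.re) cR p := cR.hasFDerivAt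
lemma hI (p : ℂ × ℝ) : HasFDerivAt (fun p : ℂ × ℝ => p.1.im) cI p := cI.hasFDerivAt
lemma hY (p : ℂ × ℝ) : HasFDerivAt (fun p : ℂ × ℝ => p.2) cY p := cY.hasFDerivAt

lemma contDiff_R {n : WithTop ℕ∞} : ContDiff ℝ n (fun p : ℂ × ℝ => p.1.re) := cR.contDiff
lemma contDiff_I {n : WithTop ℕ∞} : ContDiff ℝ n (fun p : ℂ × ℝ => p.1.im) := cI.contDiff
lemma contDiff_Y {n : WithTop ℕ∞} : ContDiff ℝ n (fun p : ℂ × ℝ => p.2) := cY.contDiff

lemma hasFDerivAt_N (p : ℂ × ℝ) : HasFDerivAt (fun p : ℂ × ℝ => Q ξ p - r ^ 2)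
    ((2 * (p.1.re - ξ.re)) • cR + (2 * (p.1.im - ξ.im)) • cI + (2 * p.2) • cY) p := by
  have h1 := ((hR p).sub_const ξ.re).pow 2
  have h2 := ((hI p).sub_const ξ.im).pow 2
  have h3 := (hY p).pow 2
  have h := ((h1.add h2).add h3).sub_const (r ^ 2)
  refine h.congr_fderiv ?_
  ext w <;> simp

lemma hasFDerivAt_Sg (hr : r ≠ 0) {p : ℂ × ℝ} (hp : p ∈ UH) : HasFDerivAt (Sg ξ r)
    ((2 * r * p.2)⁻¹ • ((2 * (p.1.re - ξ.re)) • cR + (2 * (p.1.im - ξ.im)) • cI + (2 * p.2) • cY) -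
    ((Q ξ p - r ^ 2) / (2 * r * p.2) ^ 2) • ((2 * r) • cY)) p := by
  have hy : (0 : ℝ) < p.2 := hp
  have h2 : HasFDerivAt (fun p : ℂ × ℝ => 2 * r * p.2) ((2 * r) • cY) p :=
    (hY p).const_mul (2 * r)
  exact hasFDerivAt_quot (hasFDerivAt_N p) h2 (by positivity)

lemma d1_Sg (hr : r ≠ 0) {p : ℂ × ℝ} (hp : p ∈ UH) :
    dd e1 (Sg ξ r) p = (p.1.re - ξ.re) / (r * p.2) := by
  have hy : (0 : ℝ) < p.2 := hp
  rw [dd_of (hasFDerivAt_Sg hr hp)]
  simp
  field_simp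

lemma d2_Sg (hr : r ≠ 0) {p : ℂ × ℝ} (hp : p ∈ UH) :
    dd e2 (Sg ξ r) p = (p.1.im - ξ.im) / (r * p.2) := by
  have hy : (0 : ℝ) < p.2 := hp
  rw [dd_of (hasFDerivAt_Sg hr hp)]
  simp
  field_simp

lemma d3_Sg (hr : r ≠ 0) {p : ℂ × ℝ} (hp : p ∈ UH) :
    dd e3 (Sg ξ r) p = (2 * p.2 ^ 2 - Q ξ p + r ^ 2) / (2 * r * p.2 ^ 2) := by
  have hy : (0 : ℝ) < p.2 := hp
  rw [dd_of (hasFDerivAt_Sg hr hp)]
  simp
  field_simp
  ring

lemma d11_Sg (hr : r ≠ 0) {p : ℂ × ℝ} (hp : p ∈ UH) :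
    dd e1 (dd e1 (Sg ξ r)) p = 1 / (r * p.2) := by
  have hy : (0 : ℝ) < p.2 := hp
  have e : dd e1 (Sg ξ r) =ᶠ[𝓝 p] fun p => (p.1.re - ξ.re) / (r * p.2) := by
    filter_upwards [isOpen_UH.mem_nhds hp] with w hw using d1_Sg hr hw
  rw [dd_congr e]
  have h1 : HasFDerivAt (fun p : ℂ × ℝ => p.1.re - ξ.re) cR p := (hR p).sub_const ξ.re
  have h2 : HasFDerivAt (fun p : ℂ × ℝ => r * p.2) (r • cY) p := (hY p).const_mul r
  rw [dd_of (hasFDerivAt_quot h1 h2 (by positivity))]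
  simp

lemma d22_Sg (hr : r ≠ 0) {p : ℂ × ℝ} (hp : p ∈ UH) :
    dd e2 (dd e2 (Sg ξ r)) p = 1 / (r * p.2) := by
  have hy : (0 : ℝ) < p.2 := hp
  have e : dd e2 (Sg ξ r) =ᶠ[𝓝 p] fun p => (p.1.im - ξ.im) / (r * p.2) := by
    filter_upwards [isOpen_UH.mem_nhds hp] with w hw using d2_Sg hr hw
  rw [dd_congr e]
  have h1 : HasFDerivAt (fun p : ℂ × ℝ => p.1.im - ξ.im) cI p := (hI p).sub_const ξ.im
  have h2 : HasFDerivAt (fun p : ℂ × ℝ => r * p.2) (r • cY) p := (hY p).const_mul r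
  rw [dd_of (hasFDerivAt_quot h1 h2 (by positivity))]
  simp

lemma d33_Sg (hr : r ≠ 0) {p : ℂ × ℝ} (hp : p ∈ UH) :
    dd e3 (dd e3 (Sg ξ r)) p = (Q ξ p - p.2 ^ 2 - r ^ 2) / (r * p.2 ^ 3) := by
  have hy : (0 : ℝ) < p.2 := hp
  have e : dd e3 (Sg ξ r) =ᶠ[𝓝 p] fun p =>
      (2 * p.2 ^ 2 - (Q ξ p - r ^ 2)) / (2 * r * p.2 ^ 2) := by
    filter_upwards [isOpen_UH.mem_nhds hp] with w hw
    rw [d3_Sg hr hw]; congr 1; ring
  rw [dd_congr e]
  have h1 : HasFDerivAt (fun p : ℂ × ℝ => 2 * p.2 ^ 2 - (Q ξ p - r ^ 2)) _ p :=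
    (((hY p).pow 2).const_mul 2).sub (hasFDerivAt_N (ξ := ξ) (r := r) p)
  have h2 : HasFDerivAt (fun p : ℂ × ℝ => 2 * r * p.2 ^ 2) _ p := ((hY p).pow 2).const_mul (2 * r)
  rw [dd_of (hasFDerivAt_quot h1 h2 (by positivity))]
  simp
  field_simp
  ring

lemma contDiffAt_Sg {n : WithTop ℕ∞} (hr : r ≠ 0) {p : ℂ × ℝ} (hp : p ∈ UH) :
    ContDiffAt ℝ n (Sg ξ r) p := by
  have hy : (0 : ℝ) < p.2 := hp
  refine ContDiffAt.div ?_ ?_ (by positivity)
  · exact (((((contDiff_R.sub contDiff_const).pow 2).add ((contDiff_I.sub contDiff_const).pow 2)).add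
      (contDiff_Y.pow 2)).sub contDiff_const).contDiffAt
  · exact (contDiff_const.mul contDiff_Y).contDiffAt

lemma grad_Sg (hr : r ≠ 0) {p : ℂ × ℝ} (hp : p ∈ UH) :
    p.2 ^ 2 * (dd e1 (Sg ξ r) p ^ 2 + dd e2 (Sg ξ r) p ^ 2 + dd e3 (Sg ξ r) p ^ 2) =
      1 + Sg ξ r p ^ 2 := by
  have hy : (0 : ℝ) < p.2 := hp
  rw [d1_Sg hr hp, d2_Sg hr hp, d3_Sg hr hp]
  unfold Sg Q
  field_simp
  ring

lemma op_Sg (hr : r ≠ 0) {p : ℂ × ℝ} (hp : p ∈ UH) : op (Sg ξ r) p = 3 * Sg ξ r p := by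
  have hy : (0 : ℝ) < p.2 := hp
  unfold op
  rw [d11_Sg hr hp, d22_Sg hr hp, d33_Sg hr hp, d3_Sg hr hp]
  unfold Sg Q
  field_simp
  ring

lemma one_add_sq_pos (t : ℝ) : 0 < 1 + t ^ 2 := by positivity

lemma contDiff_tb {n : WithTop ℕ∞} : ContDiff ℝ n (tb s) := by
  rw [contDiff_iff_contDiffAt]
  intro t
  unfold tb
  refine ContDiffAt.rpow_const_of_ne ?_ (one_add_sq_pos t).ne'
  exact (contDiff_const.add (contDiff_id.pow 2)).contDiffAt

lemma hasDerivAt_tb (t : ℝ) : HasDerivAt (tb s) (-s * t * (1 + t ^ 2) ^ (-(s / 2) - 1)) t := by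
  have h1 : HasDerivAt (fun t : ℝ => 1 + t ^ 2) (2 * t) t := by
    have := (hasDerivAt_pow 2 t).const_add 1
    simpa using this
  have h2 := h1.rpow_const (p := -(s / 2)) (Or.inl (one_add_sq_pos t).ne')
  refine h2.congr_deriv ?_
  ring

lemma deriv_tb : deriv (tb s) = fun t => -s * t * (1 + t ^ 2) ^ (-(s / 2) - 1) :=
  funext fun t => (hasDerivAt_tb t).deriv

lemma deriv2_tb (t : ℝ) : deriv (deriv (tb s)) t = -s * (1 + t ^ 2) ^ (-(s / 2) - 1) +
    s * (s + 2) * t ^ 2 * (1 + t ^ 2) ^ (-(s / 2) - 2) := by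
  rw [deriv_tb]
  have h1 : HasDerivAt (fun t : ℝ => 1 + t ^ 2) (2 * t) t := by
    have := (hasDerivAt_pow 2 t).const_add 1
    simpa using this
  have h2 := h1.rpow_const (p := -(s / 2) - 1) (Or.inl (one_add_sq_pos t).ne')
  have h3 := ((hasDerivAt_id t).const_mul (-s)).mul h2
  have h4 : HasDerivAt (fun t : ℝ => -s * t * (1 + t ^ 2) ^ (-(s / 2) - 1)) _ t := h3
  rw [h4.deriv]
  have e : -(s / 2) - 1 - 1 = -(s / 2) - 2 := by ring
  simp only [id]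
  rw [e]
  ring

/-- the key computation: `L cosh^{-s} = - s (2-s) cosh^{-s} - s (s - 1) cosh^{-s-2}` -/
lemma op_Bg (hr : r ≠ 0) {p : ℂ × ℝ} (hp : p ∈ UH) : op (Bg s ξ r) p =
    -(s * (2 - s)) * Bg s ξ r p - s * (s - 1) * (1 + Sg ξ r p ^ 2) ^ (-(s / 2) - 1) := by
  have e : Bg s ξ r = fun w => tb s (Sg ξ r w) := rfl
  rw [e, op_comp contDiff_tb (contDiffAt_Sg hr hp), deriv2_tb, deriv_tb]
  simp only
  rw [grad_Sg hr hp, op_Sg hr hp]
  set t := Sg ξ r p with ht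
  set A := (1 + t ^ 2) ^ (-(s / 2) - 1) with hA
  have hpos := one_add_sq_pos t
  have e1 : (1 + t ^ 2) ^ (-(s / 2) - 2) * (1 + t ^ 2) = A := by
    rw [hA, ← Real.rpow_add_one hpos.ne']; congr 1; ring
  have e2 : tb s t = A * (1 + t ^ 2) := by
    rw [hA, ← Real.rpow_add_one hpos.ne']; unfold tb; congr 1; ring
  rw [e2]
  set B := (1 + t ^ 2) ^ (-(s / 2) - 2) with hB
  calc (-s * A + s * (s + 2) * t ^ 2 * B) * (1 + t ^ 2) + -s * t * A * (3 * t)
      = -s * A * (1 + t ^ 2) + s * (s + 2) * t ^ 2 * (B * (1 + t ^ 2)) - 3 * s * t ^ 2 * A := by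
        ring
    _ = _ := by rw [e1]; ring

lemma Bg_pos (p : ℂ × ℝ) : 0 < Bg s ξ r p := Real.rpow_pos_of_pos (one_add_sq_pos _) _

lemma contDiffAt_Bg {n : WithTop ℕ∞} (hr : r ≠ 0) {p : ℂ × ℝ} (hp : p ∈ UH) :
    ContDiffAt ℝ n (Bg s ξ r) p := by
  have e : Bg s ξ r = fun w => tb s (Sg ξ r w) := rfl
  rw [e]
  exact contDiff_tb.contDiffAt.comp p (contDiffAt_Sg hr hp)

/-- supersolutions -/
structure Sup (μ : ℝ) (g : ℂ × ℝ → ℝ) : Prop where
  smooth : ∀ z ∈ UH, ContDiffAt ℝ 2 g z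
  nonneg : ∀ z ∈ UH, 0 ≤ g z
  super : ∀ z ∈ UH, op g z ≤ -μ * g z

lemma sup_Bg (hs : 1 ≤ s) (hr : r ≠ 0) : Sup (s * (2 - s)) (Bg s ξ r) := by
  refine ⟨fun z hz => contDiffAt_Bg hr hz, fun z _ => (Bg_pos z).le, fun z hz => ?_⟩
  rw [op_Bg hr hz]
  have h1 : 0 ≤ s - 1 := by linarith
  have h2 : 0 ≤ s := by linarith
  have : 0 ≤ s * (s - 1) * (1 + Sg ξ r z ^ 2) ^ (-(s / 2) - 1) := by positivity
  linarith

lemma Sup.add {μ : ℝ} {g h : ℂ × ℝ → ℝ} (hg : Sup μ g) (hh : Sup μ h) :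
    Sup μ fun w => g w + h w := by
  refine ⟨fun z hz => (hg.smooth z hz).add (hh.smooth z hz),
    fun z hz => add_nonneg (hg.nonneg z hz) (hh.nonneg z hz), fun z hz => ?_⟩
  rw [op_add (hg.smooth z hz) (hh.smooth z hz)]
  have h1 := hg.super z hz
  have h2 := hh.super z hz
  linarith

lemma Sup.smul {μ c : ℝ} (hc : 0 ≤ c) {g : ℂ × ℝ → ℝ} (hg : Sup μ g) :
    Sup μ fun w => c * g w := by
  refine ⟨fun z hz => contDiffAt_const.mul (hg.smooth z hz),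
    fun z hz => mul_nonneg hc (hg.nonneg z hz), fun z hz => ?_⟩
  rw [op_smul]
  have h1 := mul_le_mul_of_nonneg_left (hg.super z hz) hc
  linarith

lemma Sup.zero {μ : ℝ} : Sup μ fun _ => (0 : ℝ) := by
  refine ⟨fun z _ => contDiffAt_const, fun z _ => le_rfl, fun z _ => ?_⟩
  rw [op_zero]; simp

lemma Sup.sum {μ : ℝ} {ι : Type*} {g : ι → ℂ × ℝ → ℝ} (J : Finset ι) (hg : ∀ j ∈ J, Sup μ (g j)) :
    Sup μ fun w => ∑ j ∈ J, g j w := by
  classical
  induction J using Finset.induction_on with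
  | empty => simpa using Sup.zero
  | insert a J ha ih =>
    have h1 := (hg a (Finset.mem_insert_self a J)).add
      (ih fun j hj => hg j (Finset.mem_insert_of_mem hj))
    have e : (fun w => ∑ j ∈ insert a J, g j w) = fun w => g a w + ∑ j ∈ J, g j w := by
      funext w; rw [Finset.sum_insert ha]
    rw [e]; exact h1

/-- comparison principle -/
theorem comparison {μ : ℝ} {f g h : ℂ × ℝ → ℝ} {K : Set (ℂ × ℝ)} (hK : IsCompact K) (hKU : K ⊆ UH)
    (hf : ∀ z ∈ UH, ContDiffAt ℝ 2 f z) (hg : Sup μ g) (hh : ∀ z ∈ UH, ContDiffAt ℝ 2 h z)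
    (hh0 : ∀ z ∈ UH, 0 < h z) (hhs : ∀ z ∈ UH, op h z < -μ * h z)
    (hcase : ∀ p ∈ K, f p ≤ g p ∨ (K ∈ 𝓝 p ∧ -μ * f p ≤ op f p)) {z₀ : ℂ × ℝ} (hz₀ : z₀ ∈ K) :
    f z₀ ≤ g z₀ := by
  by_contra hcon
  push Not at hcon
  have hcont : ContinuousOn (fun z => (f z - g z) / h z) K := by
    intro z hz
    have hzU := hKU hz
    exact (((hf z hzU).continuousAt.sub (hg.smooth z hzU).continuousAt).div
      (hh z hzU).continuousAt (hh0 z hzU).ne').continuousWithinAt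
  obtain ⟨p, hpK, hpmax⟩ := hK.exists_isMaxOn ⟨z₀, hz₀⟩ hcont
  have hpU := hKU hpK
  set c := (f p - g p) / h p with hc
  have hcpos : 0 < c := by
    have h1 : (f z₀ - g z₀) / h z₀ ≤ c := hpmax hz₀
    have h2 : 0 < (f z₀ - g z₀) / h z₀ := div_pos (by linarith) (hh0 z₀ (hKU hz₀))
    linarith
  have hhp := hh0 p hpU
  have hcp : f p - g p = c * h p := by rw [hc]; field_simp
  have hgt : g p < f p := by nlinarith [mul_pos hcpos hhp]
  rcases hcase p hpK with h1 | ⟨h1, h2⟩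
  · linarith
  · have hmax : IsLocalMax (fun w => (f w + (-1) * g w) + (-c) * h w) p := by
      filter_upwards [h1] with w hw
      have hwU := hKU hw
      have h3 : (f w - g w) / h w ≤ c := hpmax hw
      rw [div_le_iff₀ (hh0 w hwU)] at h3
      show (f w + (-1) * g w) + (-c) * h w ≤ (f p + (-1) * g p) + (-c) * h p
      linarith
    have s1 : ContDiffAt ℝ 2 (fun w => (-1 : ℝ) * g w) p := contDiffAt_const.mul (hg.smooth p hpU)
    have s2 : ContDiffAt ℝ 2 (fun w => f w + (-1) * g w) p := (hf p hpU).add s1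
    have s3 : ContDiffAt ℝ 2 (fun w => (-c) * h w) p := contDiffAt_const.mul (hh p hpU)
    have hl := op_le_of_localMax (s2.add s3) hmax
    rw [op_add s2 s3, op_add (hf p hpU) s1, op_smul, op_smul] at hl
    have g1 := hg.super p hpU
    have g2 := mul_lt_mul_of_pos_left (hhs p hpU) hcpos
    have e2 : μ * (f p - g p) = μ * (c * h p) := by rw [hcp]
    have e3 : c * (-μ * h p) = -(μ * (c * h p)) := by ring
    rw [e3] at g2
    linarith

lemma strict_Bg {s : ℝ} (hs : 1 < s) {z : ℂ × ℝ} (hz : z ∈ UH) :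
    op (Bg s 0 1) z < -(s * (2 - s)) * Bg s 0 1 z := by
  rw [op_Bg one_ne_zero hz]
  have h1 : 0 < s - 1 := by linarith
  have h2 : 0 < s := by linarith
  have : 0 < s * (s - 1) * (1 + Sg 0 1 z ^ 2) ^ (-(s / 2) - 1) :=
    mul_pos (by positivity) (Real.rpow_pos_of_pos (one_add_sq_pos _) _)
  linarith

end Pool.Agent.Q296.IB
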