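import Pool.Agent.Q296.IB.Calc

/-! The ideal boundary of a domain of positivity of a bounded subsolution in `H^3`
(adapted from `Pool.Agent.Q196.SE.Ideal`). -/

set_option autoImplicit false
set_option linter.unusedSectionVars false
set_option maxSynthPendingDepth 3

open MeasureTheory Set Filter Topology
open scoped ENNReal

namespace Pool.Agent.Q296.IB

variable {s : ℝ}

/-- domains of positivity -/
structure Nod (f : ℂ × ℝ → ℝ) (μ : ℝ) (D : Set (ℂ × ℝ)) : Prop where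
  op : IsOpen D
  sub : D ⊆ UH
  smooth : ∀ z ∈ UH, ContDiffAt ℝ 2 f z
  pos : ∀ z ∈ D, 0 < f z
  bd : ∀ z ∈ UH, z ∉ D → z ∈ closure D → f z = 0
  eig : ∀ z ∈ D, -μ * f z ≤ IB.op f z

lemma Bg_one {ξ : ℂ} {r : ℝ} {p : ℂ × ℝ} (h : Q ξ p = r ^ 2) : Bg s ξ r p = 1 := by
  unfold Bg Sg
  rw [h, sub_self, zero_div]; simp

lemma continuous_Q (ξ : ℂ) : Continuous (Q ξ) := by
  unfold Q; fun_prop

lemma Q_zero (ξ w : ℂ) : Q ξ (w, 0) = ‖w - ξ‖ ^ 2 := by
  rw [← Complex.normSq_eq_norm_sq, Complex.normSq_apply]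
  unfold Q
  simp only [Complex.sub_re, Complex.sub_im]
  ring

lemma Q_eq (ξ : ℂ) (p : ℂ × ℝ) : Q ξ p = ‖p.1 - ξ‖ ^ 2 + p.2 ^ 2 := by
  rw [← Complex.normSq_eq_norm_sq, Complex.normSq_apply]
  unfold Q
  simp only [Complex.sub_re, Complex.sub_im]
  ring

/-- finite covering inequality -/
theorem finite_cover {f : ℂ × ℝ → ℝ} {D : Set (ℂ × ℝ)} (hs : 1 < s) (h : Nod f (s * (2 - s)) D) {M : ℝ}
    (hM : ∀ z ∈ D, f z ≤ M) (hM0 : 0 ≤ M) {z₀ : ℂ × ℝ} (hz₀ : z₀ ∈ D) {J : Finset ℕ} {ξ : ℕ → ℂ}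
    {r : ℕ → ℝ} (hr : ∀ j ∈ J, 0 < r j) (hr2 : ∀ j ∈ J, r j ≤ z₀.2) {L : ℝ} (hL : z₀.2 ≤ L)
    (hcov : ∀ w : ℂ, (w, (0 : ℝ)) ∈ closure D → ‖w - z₀.1‖ ≤ L → ∃ j ∈ J, ‖w - ξ j‖ < r j) :
    f z₀ ≤ (∑ j ∈ J, M * Bg s (ξ j) (r j) z₀) + M * Bg s z₀.1 L z₀ := by
  have hy₀ : 0 < z₀.2 := h.sub hz₀
  have hLp : 0 < L := hy₀.trans_le hL
  set K : Set (ℂ × ℝ) := closure D ∩ {p | Q z₀.1 p ≤ L ^ 2} ∩
    ⋂ j ∈ J, {p | (r j) ^ 2 ≤ Q (ξ j) p} with hK
  have hKclosed : IsClosed K := by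
    refine (isClosed_closure.inter (isClosed_le (continuous_Q _) continuous_const)).inter ?_
    exact isClosed_biInter fun j _ => isClosed_le continuous_const (continuous_Q _)
  have hKc : IsCompact K := by
    refine ((isCompact_closedBall z₀.1 L).prod (isCompact_Icc (a := -L) (b := L))).of_isClosed_subset
      hKclosed fun z hz => ?_
    have h1 : Q z₀.1 z ≤ L ^ 2 := hz.1.2
    rw [Q_eq] at h1
    refine ⟨?_, ?_⟩
    · rw [Metric.mem_closedBall, dist_eq_norm]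
      have h2 : ‖z.1 - z₀.1‖ ^ 2 ≤ L ^ 2 := by nlinarith [sq_nonneg z.2]
      rwa [sq_le_sq₀ (norm_nonneg _) hLp.le] at h2
    · have h2 : z.2 ^ 2 ≤ L ^ 2 := by nlinarith [sq_nonneg ‖z.1 - z₀.1‖]
      exact abs_le.1 (abs_le_of_sq_le_sq h2 hLp.le)
  have him : ∀ z ∈ closure D, 0 ≤ z.2 := by
    have h1 : closure D ⊆ {z : ℂ × ℝ | 0 ≤ z.2} :=
      closure_minimal (fun z hz => (show (0 : ℝ) < z.2 from h.sub hz).le)
        (isClosed_le continuous_const continuous_snd)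
    exact fun z hz => h1 hz
  have hKU : K ⊆ UH := by
    intro z hz
    have h0 := him z hz.1.1
    rcases h0.eq_or_lt with h1 | h1
    · exfalso
      have hzr : z = (z.1, (0 : ℝ)) := Prod.ext rfl h1.symm
      have hm : Q z₀.1 z ≤ L ^ 2 := hz.1.2
      rw [hzr, Q_zero, sq_le_sq₀ (norm_nonneg _) hLp.le] at hm
      obtain ⟨j, hj, hjj⟩ := hcov z.1 (by rw [← hzr]; exact hz.1.1) hm
      have h2 : (r j) ^ 2 ≤ Q (ξ j) z := mem_iInter₂.1 hz.2 j hj
      rw [hzr, Q_zero, sq_le_sq₀ (hr j hj).le (norm_nonneg _)] at h2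
      exact absurd hjj (not_lt.2 h2)
    · exact h1
  have hsup : Sup (s * (2 - s)) (fun w => (∑ j ∈ J, M * Bg s (ξ j) (r j) w) + M * Bg s z₀.1 L w) :=
    (Sup.sum J fun j hj => (sup_Bg hs.le (hr j hj).ne').smul hM0).add ((sup_Bg hs.le hLp.ne').smul hM0)
  have hnn : ∀ p, ∀ j ∈ J, 0 ≤ M * Bg s (ξ j) (r j) p := fun p j _ => mul_nonneg hM0 (Bg_pos p).le
  have hnn2 : ∀ p, 0 ≤ M * Bg s z₀.1 L p := fun p => mul_nonneg hM0 (Bg_pos p).le
  refine comparison hKc hKU h.smooth hsup (fun z hz => contDiffAt_Bg one_ne_zero hz)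
    (fun z _ => Bg_pos z) (fun z hz => strict_Bg hs hz) ?_ ?_
  · intro p hp
    have hpU := hKU hp
    by_cases hpD : p ∈ D
    · by_cases hpL : Q z₀.1 p < L ^ 2
      · by_cases hpJ : ∀ j ∈ J, (r j) ^ 2 < Q (ξ j) p
        · right
          refine ⟨?_, h.eig p hpD⟩
          have n1 : closure D ∈ 𝓝 p := Filter.mem_of_superset (h.op.mem_nhds hpD) subset_closure
          have n2 : {p | Q z₀.1 p ≤ L ^ 2} ∈ 𝓝 p := by
            filter_upwards [(isOpen_lt (continuous_Q z₀.1) continuous_const).mem_nhds hpL] with q hq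
              using le_of_lt hq
          have n3 : (⋂ j ∈ J, {p | (r j) ^ 2 ≤ Q (ξ j) p}) ∈ 𝓝 p := by
            rw [Filter.biInter_finset_mem]
            intro j hj
            filter_upwards [(isOpen_lt continuous_const (continuous_Q (ξ j))).mem_nhds (hpJ j hj)]
              with q hq using le_of_lt hq
          exact Filter.inter_mem (Filter.inter_mem n1 n2) n3
        · left
          push Not at hpJ
          obtain ⟨j, hj, hjj⟩ := hpJ
          have h2 : (r j) ^ 2 ≤ Q (ξ j) p := mem_iInter₂.1 hp.2 j hj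
          have h4 : Bg s (ξ j) (r j) p = 1 := Bg_one (le_antisymm hjj h2)
          have h5 := Finset.single_le_sum (f := fun j => M * Bg s (ξ j) (r j) p) (hnn p) hj
          simp only [h4, mul_one] at h5
          have := hM p hpD
          have := hnn2 p
          linarith
      · left
        have h2 : Q z₀.1 p ≤ L ^ 2 := hp.1.2
        have h4 : Bg s z₀.1 L p = 1 := Bg_one (le_antisymm h2 (not_lt.1 hpL))
        have h5 := Finset.sum_nonneg (hnn p)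
        have := hM p hpD
        rw [h4]; linarith
    · left
      have h0 : f p = 0 := h.bd p hpU hpD hp.1.1
      have h5 := Finset.sum_nonneg (hnn p)
      have := hnn2 p
      rw [h0]; linarith
  · refine ⟨⟨subset_closure hz₀, ?_⟩, ?_⟩
    · show Q z₀.1 z₀ ≤ L ^ 2
      rw [Q_eq, sub_self, norm_zero]
      have := pow_le_pow_left₀ hy₀.le hL 2
      linarith
    · refine mem_iInter₂.2 fun j hj => ?_
      show (r j) ^ 2 ≤ Q (ξ j) z₀
      rw [Q_eq]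
      have := pow_le_pow_left₀ (hr j hj).le (hr2 j hj) 2
      nlinarith [sq_nonneg ‖z₀.1 - ξ j‖]

/-- the barrier at infinity tends to `0` -/
lemma tendsto_Bg (hs : 0 < s) {z₀ : ℂ × ℝ} (hz₀ : 0 < z₀.2) :
    Tendsto (fun L : ℝ => Bg s z₀.1 L z₀) atTop (𝓝 0) := by
  have h1 : Tendsto (fun L : ℝ => 1 + Sg z₀.1 L z₀ ^ 2) atTop atTop := by
    have e : ∀ᶠ L : ℝ in atTop, (1 / (16 * z₀.2 ^ 2)) * L ^ 2 ≤ 1 + Sg z₀.1 L z₀ ^ 2 := by
      filter_upwards [eventually_ge_atTop (2 * z₀.2), eventually_gt_atTop 0] with L hL hL0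
      have e1 : Sg z₀.1 L z₀ = (z₀.2 ^ 2 - L ^ 2) / (2 * L * z₀.2) := by
        unfold Sg Q; rw [sub_self, sub_self]; ring
      rw [e1]
      have h2 : (L / (4 * z₀.2)) ^ 2 ≤ ((z₀.2 ^ 2 - L ^ 2) / (2 * L * z₀.2)) ^ 2 := by
        rw [sq_le_sq, abs_of_pos (by positivity), abs_of_neg (div_neg_of_neg_of_pos (by nlinarith)
          (by positivity)), ← neg_div, div_le_div_iff₀ (by positivity) (by positivity)]
        nlinarith [mul_pos hL0 hz₀, sq_nonneg (L - 2 * z₀.2)]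
      have h3 : (1 / (16 * z₀.2 ^ 2)) * L ^ 2 = (L / (4 * z₀.2)) ^ 2 := by
        field_simp; ring
      rw [h3]; linarith
    refine tendsto_atTop_mono' _ e ?_
    exact (tendsto_pow_atTop two_ne_zero).const_mul_atTop (by positivity)
  have h2 := (tendsto_rpow_neg_atTop (y := s / 2) (by positivity)).comp h1
  refine h2.congr fun L => ?_
  simp [Bg]

/-- countable covering inequality -/
theorem cover_ineq {f : ℂ × ℝ → ℝ} {D : Set (ℂ × ℝ)} (hs : 1 < s) (h : Nod f (s * (2 - s)) D)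
    {M : ℝ} (hM : ∀ z ∈ D, f z ≤ M) {z₀ : ℂ × ℝ} (hz₀ : z₀ ∈ D) {ξ : ℕ → ℂ} {r : ℕ → ℝ}
    (hr : ∀ j, 0 < r j) (hr2 : ∀ j, r j ≤ z₀.2)
    (hcov : ∀ w : ℂ, (w, (0 : ℝ)) ∈ closure D → ∃ j, ‖w - ξ j‖ < r j) :
    ENNReal.ofReal (f z₀) ≤ ENNReal.ofReal M * ∑' j, ENNReal.ofReal (Bg s (ξ j) (r j) z₀) := by
  have hy₀ : 0 < z₀.2 := h.sub hz₀
  have hM0 : 0 ≤ M := (h.pos z₀ hz₀).le.trans (hM z₀ hz₀)
  -- for each L
  have key : ∀ L : ℝ, z₀.2 ≤ L → ENNReal.ofReal (f z₀) ≤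
      ENNReal.ofReal M * (∑' j, ENNReal.ofReal (Bg s (ξ j) (r j) z₀)) +
        ENNReal.ofReal (M * Bg s z₀.1 L z₀) := by
    intro L hL
    set AL : Set ℂ := {w : ℂ | (w, (0 : ℝ)) ∈ closure D ∧ ‖w - z₀.1‖ ≤ L} with hAL
    have hALc : IsCompact AL := by
      have hcl : IsClosed AL := by
        refine (isClosed_closure.preimage (f := fun w : ℂ => (w, (0 : ℝ))) (by fun_prop)).inter ?_
        exact isClosed_le (f := fun w : ℂ => ‖w - z₀.1‖) (by fun_prop) continuous_const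
      refine (isCompact_closedBall z₀.1 L).of_isClosed_subset hcl ?_
      rintro w ⟨_, hw⟩
      rw [Metric.mem_closedBall, dist_eq_norm]
      exact hw
    obtain ⟨J, hJ⟩ := hALc.elim_finite_subcover (fun j : ℕ => Metric.ball (ξ j) (r j))
      (fun j => Metric.isOpen_ball) (by
        rintro x ⟨hx, _⟩
        obtain ⟨j, hj⟩ := hcov x hx
        exact mem_iUnion.2 ⟨j, by rw [Metric.mem_ball, dist_eq_norm]; exact hj⟩)
    have h1 := finite_cover hs h hM hM0 hz₀ (J := J) (ξ := ξ) (r := r) (fun j _ => hr j)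
      (fun j _ => hr2 j) hL (by
        intro x hx hxL
        have := hJ (show x ∈ AL from ⟨hx, hxL⟩)
        simp only [mem_iUnion, exists_prop, Metric.mem_ball, dist_eq_norm] at this
        exact this)
    refine (ENNReal.ofReal_le_ofReal h1).trans ?_
    have hnn : ∀ j ∈ J, 0 ≤ M * Bg s (ξ j) (r j) z₀ := fun j _ => mul_nonneg hM0 (Bg_pos _).le
    rw [ENNReal.ofReal_add (Finset.sum_nonneg hnn) (mul_nonneg hM0 (Bg_pos _).le),
      ENNReal.ofReal_sum_of_nonneg hnn]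
    refine add_le_add ?_ le_rfl
    rw [← ENNReal.tsum_mul_left]
    refine le_trans (le_of_eq ?_) (ENNReal.sum_le_tsum J)
    refine Finset.sum_congr rfl fun j _ => ?_
    rw [ENNReal.ofReal_mul hM0]
  have hT : Tendsto (fun L : ℝ => ENNReal.ofReal M *
      (∑' j, ENNReal.ofReal (Bg s (ξ j) (r j) z₀)) + ENNReal.ofReal (M * Bg s z₀.1 L z₀)) atTop
      (𝓝 (ENNReal.ofReal M * (∑' j, ENNReal.ofReal (Bg s (ξ j) (r j) z₀)) + ENNReal.ofReal (M * 0))) :=
    tendsto_const_nhds.add (ENNReal.tendsto_ofReal ((tendsto_Bg (by linarith) hy₀).const_mul M))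
  rw [mul_zero, ENNReal.ofReal_zero, add_zero] at hT
  refine ge_of_tendsto hT ?_
  filter_upwards [eventually_ge_atTop z₀.2] with L hL using key L hL

/-- size of the barrier -/
lemma Bg_le (hs : 0 < s) {ξ : ℂ} {r : ℝ} {z₀ : ℂ × ℝ} (hz₀ : 0 < z₀.2) (hr : 0 < r)
    (hr2 : r ≤ z₀.2 / 2) : Bg s ξ r z₀ ≤ (3 * r / z₀.2) ^ s := by
  have h1 : z₀.2 / (3 * r) ≤ Sg ξ r z₀ := by
    unfold Sg Q
    rw [div_le_div_iff₀ (by positivity) (by positivity)]
    nlinarith [mul_nonneg hr.le (sq_nonneg (z₀.1.re - ξ.re)), mul_nonneg hr.le (sq_nonneg (z₀.1.im - ξ.im)),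
      mul_pos hr hz₀, sq_nonneg (z₀.2 - 2 * r),
      mul_nonneg hr.le (mul_nonneg (show (0:ℝ) ≤ z₀.2 - 2 * r by linarith) (show (0:ℝ) ≤ z₀.2 + 2 * r by positivity))]
  have h2 : (z₀.2 / (3 * r)) ^ 2 ≤ 1 + Sg ξ r z₀ ^ 2 := by
    have : (z₀.2 / (3 * r)) ^ 2 ≤ Sg ξ r z₀ ^ 2 := pow_le_pow_left₀ (by positivity) h1 2
    linarith
  unfold Bg
  have hp : 0 < (z₀.2 / (3 * r)) ^ 2 := by positivity
  calc (1 + Sg ξ r z₀ ^ 2) ^ (-(s / 2)) ≤ ((z₀.2 / (3 * r)) ^ 2) ^ (-(s / 2)) :=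
        Real.rpow_le_rpow_of_nonpos hp h2 (by linarith)
    _ = (3 * r / z₀.2) ^ s := by
        rw [← Real.rpow_natCast, ← Real.rpow_mul (by positivity), show ((2 : ℕ) : ℝ) * -(s / 2) = -s by
          push_cast; ring, Real.rpow_neg (by positivity), ← Real.inv_rpow (by positivity), inv_div]

/-- positivity of the Hausdorff measure of the ideal boundary -/
theorem hausdorff_pos {f : ℂ × ℝ → ℝ} {D : Set (ℂ × ℝ)} (hs : 1 < s) (h : Nod f (s * (2 - s)) D)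
    {M : ℝ} (hM : ∀ z ∈ D, f z ≤ M) {z₀ : ℂ × ℝ} (hz₀ : z₀ ∈ D) :
    0 < Measure.hausdorffMeasure s {w : ℂ | (w, (0 : ℝ)) ∈ closure D} := by
  have hs0 : 0 < s := by linarith
  rw [pos_iff_ne_zero]
  intro h0
  have hy₀ : 0 < z₀.2 := h.sub hz₀
  have hf0 : 0 < f z₀ := h.pos z₀ hz₀
  have hM0 : 0 < M := hf0.trans_le (hM z₀ hz₀)
  set A : Set ℂ := {w : ℂ | (w, (0 : ℝ)) ∈ closure D} with hA
  -- the constants
  set C : ℝ := M * (6 / z₀.2) ^ s with hC
  have hCp : 0 < C := by positivity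
  set δ : ℝ := f z₀ / (4 * C) with hδ
  have hδp : 0 < δ := by positivity
  rw [Measure.hausdorffMeasure_apply] at h0
  have h1 := ENNReal.iSup_eq_zero.1 h0 (ENNReal.ofReal (z₀.2 / 8))
  have h2 := ENNReal.iSup_eq_zero.1 h1 (by rw [ENNReal.ofReal_pos]; positivity)
  have h3 : (⨅ (t : ℕ → Set ℂ) (_ : A ⊆ ⋃ n, t n)
      (_ : ∀ n, Metric.ediam (t n) ≤ ENNReal.ofReal (z₀.2 / 8)),
      ∑' n, ⨆ _ : (t n).Nonempty, Metric.ediam (t n) ^ s) < ENNReal.ofReal δ := by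
    rw [h2, ENNReal.ofReal_pos]; exact hδp
  simp only [iInf_lt_iff] at h3
  obtain ⟨t, ht1, ht2, ht3⟩ := h3
  -- the discs
  set dm : ℕ → ℝ := fun n => (Metric.ediam (t n)).toReal with hdm
  have hfin : ∀ n, Metric.ediam (t n) ≠ ⊤ := fun n => ne_top_of_le_ne_top ENNReal.ofReal_ne_top (ht2 n)
  have hdm0 : ∀ n, 0 ≤ dm n := fun n => ENNReal.toReal_nonneg
  have hdm1 : ∀ n, dm n ≤ z₀.2 / 8 := fun n =>
    ENNReal.toReal_le_of_le_ofReal (by positivity) (ht2 n)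
  set η : ℕ → ℝ := fun n => min (z₀.2 / 8) ((δ / 2 / 2 ^ n) ^ (1 / s)) with hη
  have hη0 : ∀ n, 0 < η n := fun n => by rw [hη]; positivity
  have hη1 : ∀ n, η n ≤ z₀.2 / 8 := fun n => min_le_left _ _
  have hη2 : ∀ n, η n ^ s ≤ δ / 2 / 2 ^ n := by
    intro n
    calc η n ^ s ≤ ((δ / 2 / 2 ^ n) ^ (1 / s)) ^ s :=
          Real.rpow_le_rpow (hη0 n).le (min_le_right _ _) hs0.le
      _ = δ / 2 / 2 ^ n := by
          rw [← Real.rpow_mul (by positivity), one_div, inv_mul_cancel₀ hs0.ne', Real.rpow_one]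
  classical
  set ξ : ℕ → ℂ := fun n => if hn : (t n).Nonempty then hn.some else 0 with hξ
  set r : ℕ → ℝ := fun n => 2 * max (dm n) (η n) with hr
  have hmx : ∀ n, 0 < max (dm n) (η n) := fun n => lt_max_of_lt_right (hη0 n)
  have hr0 : ∀ n, 0 < r n := fun n => mul_pos two_pos (hmx n)
  have hr1 : ∀ n, r n ≤ z₀.2 / 4 := by
    intro n
    have : max (dm n) (η n) ≤ z₀.2 / 8 := max_le (hdm1 n) (hη1 n)
    show 2 * max (dm n) (η n) ≤ z₀.2 / 4
    linarith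
  have hcov : ∀ w : ℂ, (w, (0 : ℝ)) ∈ closure D → ∃ j, ‖w - ξ j‖ < r j := by
    intro x hx
    obtain ⟨n, hn⟩ := mem_iUnion.1 (ht1 hx)
    refine ⟨n, ?_⟩
    have hne : (t n).Nonempty := ⟨x, hn⟩
    have hξn : ξ n ∈ t n := by
      rw [hξ]
      simp only [dif_pos hne]
      exact hne.some_mem
    have h4 : ‖x - ξ n‖ ≤ dm n := by
      rw [← dist_eq_norm]
      have h5 : edist x (ξ n) ≤ Metric.ediam (t n) := Metric.edist_le_ediam_of_mem hn hξn
      rw [edist_dist] at h5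
      exact (ENNReal.ofReal_le_iff_le_toReal (hfin n)).1 h5
    have h6 := le_max_left (dm n) (η n)
    have h7 := hmx n
    show ‖x - ξ n‖ < 2 * max (dm n) (η n)
    linarith
  have hineq := cover_ineq hs h hM hz₀ hr0 (fun j => (hr1 j).trans (by linarith)) hcov
  have hterm : ∀ n, ENNReal.ofReal (Bg s (ξ n) (r n) z₀) ≤ ENNReal.ofReal ((6 / z₀.2) ^ s) *
      ((⨆ _ : (t n).Nonempty, Metric.ediam (t n) ^ s) + ENNReal.ofReal (δ / 2 / 2 ^ n)) := by
    intro n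
    have h4 := Bg_le hs0 (ξ := ξ n) hy₀ (hr0 n) ((hr1 n).trans (by linarith))
    have h5 : (3 * r n / z₀.2) ^ s = (6 / z₀.2) ^ s * (max (dm n) (η n)) ^ s := by
      rw [← Real.mul_rpow (by positivity) (hmx n).le]
      congr 1
      show 3 * (2 * max (dm n) (η n)) / z₀.2 = _
      ring
    rw [h5] at h4
    refine (ENNReal.ofReal_le_ofReal h4).trans ?_
    rw [ENNReal.ofReal_mul (by positivity)]
    refine mul_le_mul_right ?_ _
    rcases le_total (dm n) (η n) with h6 | h6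
    · rw [max_eq_right h6]
      exact (ENNReal.ofReal_le_ofReal (hη2 n)).trans le_add_self
    · rw [max_eq_left h6]
      have hpos : 0 < dm n := (hη0 n).trans_le h6
      have hne : (t n).Nonempty := by
        by_contra hcon
        rw [not_nonempty_iff_eq_empty] at hcon
        have : dm n = 0 := by rw [hdm]; simp [hcon]
        linarith
      have h7 : ENNReal.ofReal (dm n ^ s) = Metric.ediam (t n) ^ s := by
        rw [← ENNReal.ofReal_rpow_of_nonneg (hdm0 n) hs0.le, hdm]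
        simp only
        rw [ENNReal.ofReal_toReal (hfin n)]
      rw [h7, iSup_pos hne]
      exact le_self_add
  have hsum : ∑' n, ENNReal.ofReal (Bg s (ξ n) (r n) z₀) ≤
      ENNReal.ofReal ((6 / z₀.2) ^ s) * (ENNReal.ofReal δ + ENNReal.ofReal δ) := by
    refine (ENNReal.tsum_le_tsum hterm).trans ?_
    rw [ENNReal.tsum_mul_left, ENNReal.tsum_add]
    refine mul_le_mul_right (add_le_add ht3.le (le_of_eq ?_)) _
    rw [← ENNReal.ofReal_tsum_of_nonneg (fun n => by positivity) (summable_geometric_two' δ),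
      tsum_geometric_two']
  have hfinal : ENNReal.ofReal (f z₀) ≤ ENNReal.ofReal (C * (2 * δ)) := by
    refine hineq.trans ((mul_le_mul_right hsum _).trans (le_of_eq ?_))
    rw [← ENNReal.ofReal_add hδp.le hδp.le, ← ENNReal.ofReal_mul (by positivity),
      ← ENNReal.ofReal_mul hM0.le]
    congr 1
    rw [hC]; ring
  rw [ENNReal.ofReal_le_ofReal_iff (by positivity)] at hfinal
  have : C * (2 * δ) = f z₀ / 2 := by
    rw [hδ]; field_simp; norm_num
  linarith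

/-! ### components -/

section comp

variable {u : ℂ × ℝ → ℝ} {z₀ : ℂ × ℝ}

/-- the component of `{u ≠ 0}` in the upper half space through `z₀` -/
abbrev cmp (u : ℂ × ℝ → ℝ) (z₀ : ℂ × ℝ) : Set (ℂ × ℝ) := connectedComponentIn {z | 0 < z.2 ∧ u z ≠ 0} z₀

lemma isOpen_ne (hu : ContinuousOn u UH) : IsOpen {z : ℂ × ℝ | 0 < z.2 ∧ u z ≠ 0} :=
  hu.isOpen_inter_preimage isOpen_UH isOpen_compl_singleton

lemma cmp_open (hu : ContinuousOn u UH) : IsOpen (cmp u z₀) := (isOpen_ne hu).connectedComponentIn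

lemma cmp_bd (hu : ContinuousOn u UH) {z : ℂ × ℝ} (hzU : z ∈ UH) (hz : z ∉ cmp u z₀)
    (hzc : z ∈ closure (cmp u z₀)) : u z = 0 := by
  by_contra h
  have hC : IsOpen (cmp u z) := cmp_open hu
  have hzC : z ∈ cmp u z := mem_connectedComponentIn
    (show z ∈ {z : ℂ × ℝ | 0 < z.2 ∧ u z ≠ 0} from ⟨hzU, h⟩)
  obtain ⟨w, hw1, hw2⟩ := mem_closure_iff.1 hzc _ hC hzC
  have e1 := connectedComponentIn_eq hw1
  have e2 := connectedComponentIn_eq hw2
  apply hz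
  show z ∈ connectedComponentIn {z | 0 < z.2 ∧ u z ≠ 0} z₀
  rw [e2, ← e1]
  exact hzC

lemma cmp_pos (hu : ContinuousOn u UH) (hz₀U : z₀ ∈ UH) (h0 : 0 < u z₀) {z : ℂ × ℝ}
    (hz : z ∈ cmp u z₀) : 0 < u z := by
  have hz₀ : z₀ ∈ cmp u z₀ := mem_connectedComponentIn
    (show z₀ ∈ {z : ℂ × ℝ | 0 < z.2 ∧ u z ≠ 0} from ⟨hz₀U, h0.ne'⟩)
  by_contra hcon
  push Not at hcon
  obtain ⟨w, hw, hw0⟩ := isPreconnected_connectedComponentIn.intermediate_value hz hz₀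
    (hu.mono fun v hv => (connectedComponentIn_subset _ _ hv).1) ⟨hcon, h0.le⟩
  exact (connectedComponentIn_subset _ _ hw).2 hw0

end comp

lemma nod_of {f : ℂ × ℝ → ℝ} {μ : ℝ} {z₀ : ℂ × ℝ} (hf : ∀ z ∈ UH, ContDiffAt ℝ 2 f z)
    (heig : ∀ z ∈ UH, IB.op f z = -μ * f z) (hz₀ : z₀ ∈ UH) (h0 : 0 < f z₀) :
    Nod f μ (cmp f z₀) := by
  have hu : ContinuousOn f UH := fun z hz => (hf z hz).continuousAt.continuousWithinAt
  refine ⟨cmp_open hu, fun z hz => (connectedComponentIn_subset _ _ hz).1, hf,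
    fun z hz => cmp_pos hu hz₀ h0 hz, fun z hz hzn hzc => cmp_bd hu hz hzn hzc, ?_⟩
  intro z hz
  exact (heig z (connectedComponentIn_subset _ _ hz).1).ge

end Pool.Agent.Q296.IB
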